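import Pool.Agent.TH617.HP.Jump2

set_option autoImplicit false

/-!
Majority on a fraction `1 / 2 + 1 / (log n + 1) ^ e` of the inputs, for a polynomially dense set of
input lengths.
-/

namespace Pool.Agent.TH617.HP

open Pool.Agent.TH762.AC Pool.Agent.TH931.LA

variable {G : ℕ → ℕ → Prop}

/-- For a polynomially dense set of lengths `n` (some `n` with `N ≤ n ≤ a * N ^ a + a`, for every
`N`) some circuit with the further gate `G`, of polynomial size and constant depth, agrees with
majority on at least a fraction `1 / 2 + 1 / (log n + 1) ^ e` of the `2 ^ n` inputs: it errs on at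
most `(1 / 2 - 1 / (log n + 1) ^ e) * 2 ^ n` of them. -/
def CorrelatesOften (G : ℕ → ℕ → Prop) (e : ℕ) : Prop :=
  ∃ a D : ℕ, ∀ N : ℕ, ∃ n : ℕ, N ≤ n ∧ n ≤ a * N ^ a + a ∧
    ∃ f : (Fin n → Bool) → Prop, Circ G n (a * n ^ a + a) D f ∧
      (errors f : ℝ) ≤ (1 / 2 - 1 / ((Nat.log 2 n : ℝ) + 1) ^ e) * 2 ^ n

/-- ignoring the first of `n + 1` bits -/
def lift {n : ℕ} (f : (Fin n → Bool) → Prop) (x : Fin (n + 1) → Bool) : Prop :=
  f (fun i => x i.succ)

theorem lift_circ {n S D : ℕ} {f : (Fin n → Bool) → Prop} (hf : CC G n S D f) :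
    CC G (n + 1) (S + n) (1 + D) (lift f) := by
  have h2 := hf.comp (n := n + 1) (s' := 1) (D' := 1) (fun i x => x i.succ = true) (by
    intro i
    exact CC.bit _) (lift f) (by
    intro y z hz
    have : (fun i => y (Fin.succ i)) = z := by
      funext i
      rw [Bool.eq_iff_iff]
      exact (hz i).symm
    unfold lift
    rw [this])
  exact h2.mono (by omega) le_rfl

theorem ones_cons {n : ℕ} (b : Bool) (y : Fin n → Bool) :
    ones (Fin.cons b y : Fin (n + 1) → Bool) = (if b = true then 1 else 0) + ones y := by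
  unfold ones
  rw [Finset.card_filter, Finset.card_filter, Fin.sum_univ_succ]
  simp

theorem card_cons {n : ℕ} (P : (Fin (n + 1) → Bool) → Prop) [DecidablePred P]
    [∀ b : Bool, DecidablePred fun y : Fin n → Bool => P (Fin.cons b y)] :
    (Finset.univ.filter P).card =
      (Finset.univ.filter fun y : Fin n → Bool => P (Fin.cons true y)).card +
      (Finset.univ.filter fun y : Fin n → Bool => P (Fin.cons false y)).card := by
  classical
  rw [Finset.card_filter, Finset.card_filter, Finset.card_filter,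
    ← (Fin.consEquiv (fun _ : Fin (n + 1) => Bool)).sum_comp, Fintype.sum_prod_type,
    Fintype.sum_bool]
  congr 1
  · exact Finset.sum_congr rfl fun y _ => if_congr Iff.rfl rfl rfl
  · exact Finset.sum_congr rfl fun y _ => if_congr Iff.rfl rfl rfl

theorem errors_lift {h : ℕ} (f : (Fin (2 * h + 1) → Bool) → Prop) :
    errors (lift f) ≤ 2 * errors f + (2 * h + 2).choose (h + 1) := by
  classical
  unfold errors
  rw [card_cons]
  have h1 : (Finset.univ.filter fun y : Fin (2 * h + 1) → Bool =>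
      ¬ (lift f (Fin.cons false y : Fin (2 * h + 1 + 1) → Bool) ↔
        2 * h + 1 + 1 ≤ 2 * ones (Fin.cons false y : Fin (2 * h + 1 + 1) → Bool))).card ≤
      (Finset.univ.filter fun y : Fin (2 * h + 1) → Bool =>
        ¬ (f y ↔ 2 * h + 1 ≤ 2 * ones y)).card := by
    apply Finset.card_le_card
    intro y hy
    simp only [Finset.mem_filter, Finset.mem_univ, true_and] at hy ⊢
    intro h2
    apply hy
    unfold lift
    simp only [Fin.cons_succ, ones_cons]
    rw [h2]
    constructor <;> intro h3 <;> simp at * <;> omega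
  have h2 : (Finset.univ.filter fun y : Fin (2 * h + 1) → Bool =>
      ¬ (lift f (Fin.cons true y : Fin (2 * h + 1 + 1) → Bool) ↔
        2 * h + 1 + 1 ≤ 2 * ones (Fin.cons true y : Fin (2 * h + 1 + 1) → Bool))).card ≤
      (Finset.univ.filter fun y : Fin (2 * h + 1) → Bool =>
        ¬ (f y ↔ 2 * h + 1 ≤ 2 * ones y)).card + (2 * h + 1).choose h := by
    rw [← card_layer (2 * h + 1) h]
    refine le_trans (Finset.card_le_card ?_) (Finset.card_union_le _ _)
    intro y hy
    simp only [Finset.mem_filter, Finset.mem_univ, true_and, Finset.mem_union] at hy ⊢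
    by_contra hcon
    push Not at hcon
    obtain ⟨h2, h3⟩ := hcon
    apply hy
    unfold lift
    simp only [Fin.cons_succ, ones_cons]
    rw [h2]
    constructor <;> intro h4 <;> simp at * <;> omega
  have h3 : (2 * h + 1).choose h ≤ (2 * h + 2).choose (h + 1) := by
    rw [Nat.choose_succ_succ]
    exact Nat.le_add_right _ _
  convert (Nat.add_le_add h2 h1).trans (show _ ≤ 2 * (Finset.univ.filter
    fun y : Fin (2 * h + 1) → Bool => ¬ (f y ↔ 2 * h + 1 ≤ 2 * ones y)).card +
      (2 * h + 2).choose (h + 1) by omega) using 1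

/-- Reduction to even lengths. -/
theorem even_of_often {e : ℕ} (h : CorrelatesOften G e) : ∃ A D : ℕ, ∀ N : ℕ, 2 ≤ N → ∃ k : ℕ,
    N ≤ 2 * k ∧ 2 * k ≤ A * N ^ A + A ∧ ∃ f : (Fin (2 * k) → Bool) → Prop,
      CC G (2 * k) (A * (2 * k) ^ A + A) D f ∧
      (errors f : ℝ) ≤ (1 / 2 - 1 / ((Nat.log 2 (2 * k) : ℝ) + 1) ^ e) * 4 ^ k + cc k 0 := by
  obtain ⟨a, D, h⟩ := h
  refine ⟨a + 1, D + 1, fun N hN => ?_⟩
  obtain ⟨n, h1, h2, f, h3, h4⟩ := h N
  have hpN : a * N ^ a ≤ (a + 1) * N ^ (a + 1) :=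
    Nat.mul_le_mul (by omega) (Nat.pow_le_pow_right (by omega) (by omega))
  rcases Nat.even_or_odd' n with ⟨k, hk | hk⟩
  · subst hk
    refine ⟨k, h1, by omega, f, ?_, ?_⟩
    · refine ((circ_iff _ _ _ _ _).1 h3).mono ?_ (by omega)
      have : a * (2 * k) ^ a ≤ (a + 1) * (2 * k) ^ (a + 1) :=
        Nat.mul_le_mul (by omega) (Nat.pow_le_pow_right (by omega) (by omega))
      omega
    · have h5 : (4 : ℝ) ^ k = 2 ^ (2 * k) := by rw [pow_mul]; norm_num
      rw [h5]
      push_cast at h4 ⊢
      have := cc_nonneg k 0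
      linarith
  · subst hk
    refine ⟨k + 1, by omega, by omega, lift f, ?_, ?_⟩
    · have h5 := lift_circ ((circ_iff _ _ _ _ _).1 h3)
      refine (show CC G (2 * (k + 1)) _ _ (lift f) from h5).mono ?_ (by omega)
      have h6 : a * (2 * k + 1) ^ a ≤ a * (2 * (k + 1)) ^ (a + 1) :=
        Nat.mul_le_mul_left _ ((Nat.pow_le_pow_left (by omega) a).trans
          (Nat.pow_le_pow_right (by omega) (by omega)))
      have h7 : 2 * (k + 1) ≤ (2 * (k + 1)) ^ (a + 1) := Nat.le_self_pow (by omega) _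
      have h8 : (a + 1) * (2 * (k + 1)) ^ (a + 1) =
        a * (2 * (k + 1)) ^ (a + 1) + (2 * (k + 1)) ^ (a + 1) := by ring
      omega
    · have h5 := errors_lift f
      have h6 : ((errors (lift f) : ℕ) : ℝ) ≤ 2 * (errors f : ℝ) +
          ((2 * k + 2).choose (k + 1) : ℝ) := by exact_mod_cast h5
      have h7 : cc (k + 1) 0 = ((2 * k + 2).choose (k + 1) : ℝ) := by
        unfold cc
        rw [add_zero, show 2 * (k + 1) = 2 * k + 2 by ring]
      rw [h7]
      refine h6.trans ?_
      have h8 : (1 : ℝ) / ((Nat.log 2 (2 * (k + 1)) : ℝ) + 1) ^ e ≤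
          1 / ((Nat.log 2 (2 * k + 1) : ℝ) + 1) ^ e := by
        apply one_div_le_one_div_of_le (by positivity)
        apply pow_le_pow_left₀ (by positivity)
        have : Nat.log 2 (2 * k + 1) ≤ Nat.log 2 (2 * (k + 1)) := Nat.log_mono_right (by omega)
        have : (Nat.log 2 (2 * k + 1) : ℝ) ≤ (Nat.log 2 (2 * (k + 1)) : ℝ) := by exact_mod_cast this
        linarith
      have h9 : (4 : ℝ) ^ (k + 1) = 2 * 2 ^ (2 * k + 1) := by
        rw [show (4 : ℝ) = 2 ^ 2 by norm_num, ← pow_mul]; ring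
      have h10 : (0 : ℝ) < 2 ^ (2 * k + 1) := by positivity
      rw [h9]
      have h11 := mul_le_mul_of_nonneg_right h8 h10.le
      nlinarith

end Pool.Agent.TH617.HP
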