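import Pool.Agent.TH617.HP.Jump2

set_option autoImplicit false

/-!
Majority on a fraction `1 / 2 + 1 / (log n + 1) ^ e` of the inputs.
-/

namespace Pool.Agent.TH617.HP

open Pool.Agent.TH762.AC Pool.Agent.TH931.LA

variable {G : ℕ → ℕ → Prop}

/-- For all sufficiently large `n`, some circuit with the further gate `G`, of polynomial size and
constant depth, agrees with majority on at least a fraction `1 / 2 + 1 / (log n + 1) ^ e` of the
`2 ^ n` inputs: it errs on at most `(1 / 2 - 1 / (log n + 1) ^ e) * 2 ^ n` of them. -/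
def Correlates (G : ℕ → ℕ → Prop) (e : ℕ) : Prop :=
  ∃ a D n₀ : ℕ, ∀ n : ℕ, n₀ ≤ n → ∃ f : (Fin n → Bool) → Prop, Circ G n (a * n ^ a + a) D f ∧
    (errors f : ℝ) ≤ (1 / 2 - 1 / ((Nat.log 2 n : ℝ) + 1) ^ e) * 2 ^ n

theorem four_pow (H : ℕ) : (4 : ℝ) ^ H = 2 ^ (2 * H) := by rw [pow_mul]; norm_num

theorem sep_of_corr {e : ℕ} (h : Correlates G e) :
    ∃ s, PolyB s ∧ ∃ D, ∀ n, 1 ≤ n → ∀ w u, w < u → u ≤ n → ∃ g, CC G n (s n) D g ∧
      (∀ x, ones x = w → ¬ g x) ∧ ∀ x, ones x = u → g x := by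
  classical
  obtain ⟨a, D, n₀, h⟩ := h
  let Q : ℕ → ℕ → ℕ → Prop := fun n s t => ∃ f : (Fin n → Bool) → Prop,
    CC G n (a * n ^ a + a) D f ∧
      1 / ((Nat.log 2 n : ℝ) + 1) ^ (e + 1) ≤ |frac f t - frac f s|
  have hT : Tell G Q (e + 1) := ⟨a, D, fun n _ s t hst => hst⟩
  obtain ⟨K₀, hK₀, hK₀'⟩ := log_pow_bound (4 * e)
  obtain ⟨K, hKdef⟩ : ∃ K, K = K₀ * (n₀ + 1) := ⟨_, rfl⟩
  have hKK₀ : K₀ ≤ K := by rw [hKdef]; exact Nat.le_mul_of_pos_right _ (by omega)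
  have hKn : n₀ + 1 ≤ K := by rw [hKdef]; exact Nat.le_mul_of_pos_left _ (by omega)
  have hK1 : 1 ≤ K := by omega
  have hK : ∀ x : ℕ, x ^ (4 * e) ≤ K * 2 ^ x := fun x =>
    (hK₀' x).trans (Nat.mul_le_mul_right _ hKK₀)
  refine sep_general (B := fun N => 2 ^ 27 * K * N ^ 4)
    ((PolyB.const (2 ^ 27 * K)).mul (PolyB.id.pow 4)) ?_ hT
  intro N w u hN hwu hu
  set H := 2 ^ 26 * K * N ^ 4 with hH
  have hN4 : N ≤ N ^ 4 := Nat.le_self_pow (by norm_num) N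
  have hHN : 2 ^ 26 * N ≤ H := by
    rw [hH]
    calc 2 ^ 26 * N ≤ 2 ^ 26 * N ^ 4 := Nat.mul_le_mul_left _ hN4
      _ = 2 ^ 26 * 1 * N ^ 4 := by ring
      _ ≤ 2 ^ 26 * K * N ^ 4 := Nat.mul_le_mul_right _ (Nat.mul_le_mul_left _ hK1)
  have hHK : K ≤ H := by
    have h1 : 1 ≤ N ^ 4 := Nat.one_le_pow _ _ (by omega)
    rw [hH]
    calc K = 1 * K * 1 := by ring
      _ ≤ 2 ^ 26 * K * N ^ 4 := Nat.mul_le_mul (Nat.mul_le_mul_right _ (by norm_num)) h1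
  obtain ⟨i, hi⟩ : ∃ i, u = w + i := ⟨u - w, by omega⟩
  have hi1 : 1 ≤ i := by omega
  have hiN : i ≤ N := by omega
  set L := Nat.log 2 (2 * H) + 1 with hL
  have hlog : 1 ≤ Nat.log 2 (2 * H) := Nat.log_pos (by norm_num) (by omega)
  set Λ := L ^ e with hΛ
  have hΛ1 : 1 ≤ Λ := Nat.one_le_pow _ _ (by omega)
  have h2L : 2 ^ L ≤ 4 * H := by
    rw [hL, pow_succ]
    have := Nat.pow_log_le_self 2 (show 2 * H ≠ 0 by omega)
    omega
  have hbig : 4096 * N ^ 2 * Λ ^ 2 ≤ H := by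
    have h2 := (hK L).trans (Nat.mul_le_mul_left K h2L)
    have h3 : (4096 * N ^ 2 * Λ ^ 2) ^ 2 ≤ H ^ 2 := by
      calc (4096 * N ^ 2 * Λ ^ 2) ^ 2 = 2 ^ 24 * N ^ 4 * L ^ (4 * e) := by
            rw [hΛ, mul_pow, mul_pow, ← pow_mul, ← pow_mul, ← pow_mul]
            rw [show e * (2 * 2) = 4 * e by ring]
            norm_num
        _ ≤ 2 ^ 24 * N ^ 4 * (K * (4 * H)) := Nat.mul_le_mul_left _ h2
        _ = (2 ^ 26 * K * N ^ 4) * H := by ring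
        _ = H ^ 2 := by rw [← hH]; ring
    exact (Nat.pow_le_pow_iff_left (by norm_num)).1 h3
  obtain ⟨f, hf, herr⟩ := h (2 * H) (by omega)
  have hLR : ((Nat.log 2 (2 * H) : ℝ) + 1) = (L : ℝ) := by
    rw [hL]; push_cast; ring
  have hΛR : (Λ : ℝ) = (L : ℝ) ^ e := by
    rw [hΛ]; push_cast; ring
  have hΛR1 : (1 : ℝ) ≤ Λ := by exact_mod_cast hΛ1
  have herr' : (errors f : ℝ) ≤ (1 - 1 / (Λ : ℝ)) / 2 * 4 ^ H := by
    rw [hLR, ← hΛR] at herr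
    rw [four_pow H]
    refine herr.trans (mul_le_mul_of_nonneg_right ?_ (by positivity))
    have h5 : 0 ≤ 1 / (Λ : ℝ) := by positivity
    linarith
  obtain ⟨j, b, c1, c2, c3, ⟨r, hr⟩, c5⟩ := jump2 hi1 hiN hΛ1 hbig f herr'
  set M := H / (8 * N) with hM
  have hMh : 8 * N * M ≤ H := Nat.mul_div_le H (8 * N)
  have hNM : M ≤ N * M := Nat.le_mul_of_pos_left M (by omega)
  have hN2 : N ≤ N ^ 2 := Nat.le_self_pow (by norm_num) N
  have hΛ2 : 1 ≤ Λ ^ 2 := Nat.one_le_pow _ _ (by omega)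
  have hNsq : 4096 * N ^ 2 ≤ H := by
    calc 4096 * N ^ 2 = 4096 * N ^ 2 * 1 := by ring
      _ ≤ 4096 * N ^ 2 * Λ ^ 2 := Nat.mul_le_mul_left _ hΛ2
      _ ≤ H := hbig
  have hrle : r ≤ 2 * M + N := by
    have h1 : r ≤ i * r := Nat.le_mul_of_pos_left r (by omega)
    omega
  have hrN : r * N ≤ 2 * (N * M) + N ^ 2 := by
    calc r * N ≤ (2 * M + N) * N := Nat.mul_le_mul_right _ hrle
      _ = 2 * (N * M) + N ^ 2 := by ring
  have hMh' : 8 * (N * M) ≤ H := by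
    calc 8 * (N * M) = 8 * N * M := by ring
      _ ≤ H := hMh
  have hrw : r * w ≤ r * N := Nat.mul_le_mul_left _ (by omega)
  obtain ⟨j1, hj1⟩ : ∃ j1, r * w + j1 + (b + 1) = H := ⟨H - (b + 1) - r * w, by omega⟩
  obtain ⟨j0, hj0⟩ : ∃ j0, r * N + j1 + j0 = 2 * H := ⟨2 * H - (r * N + j1), by omega⟩
  refine ⟨r, j1, j0, by omega, ?_, ?_⟩
  · rw [hj0, hH]
    exact le_of_eq (by ring)
  · have e1 : r * (w + i) + j1 = H + (j + 1) := by
      have : r * (w + i) = r * w + i * r := by ring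
      omega
    have e2 : r * w + j1 = H - (b + 1) := by omega
    rw [hj0, hi, e1, e2]
    refine ⟨f, (circ_iff _ _ _ _ _).1 hf, le_trans ?_ (c5.trans (le_abs_self _))⟩
    rw [hLR, hΛR]
    have hL2 : (2 : ℝ) ≤ (L : ℝ) := by
      have : 2 ≤ L := by omega
      exact_mod_cast this
    have hLe : (0 : ℝ) < (L : ℝ) ^ e := by positivity
    apply one_div_le_one_div_of_le (by positivity)
    rw [pow_succ]
    nlinarith

theorem tc0_sub_iff_corr (G : ℕ → ℕ → Prop) (e : ℕ) (he : 1 ≤ e) :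
    TC0 ⊆ {L | Decides G L} ↔ Correlates G e := by
  classical
  constructor
  · intro h
    have h1 : MajL ∈ TC0 := (decides_iff _ _).2 majL_inCl
    obtain ⟨a, D, h2⟩ := h h1
    refine ⟨a, D, 2, fun n hn => ⟨_, h2 n (by omega), ?_⟩⟩
    have h3 : errors (fun x : Fin n → Bool => List.ofFn x ∈ MajL) = 0 := by
      unfold errors
      rw [Finset.card_eq_zero, Finset.filter_eq_empty_iff]
      intro x _
      rw [not_not]
      show (List.ofFn x).length ≤ 2 * (List.ofFn x).count true ↔ _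
      rw [count_ofFn, List.length_ofFn]
    rw [h3]
    have h0 : (2 : ℝ) ≤ (Nat.log 2 n : ℝ) + 1 := by
      have h5 : 1 ≤ Nat.log 2 n := Nat.log_pos (by norm_num) hn
      have : (1 : ℝ) ≤ (Nat.log 2 n : ℝ) := by exact_mod_cast h5
      linarith
    have h4 : (2 : ℝ) ≤ ((Nat.log 2 n : ℝ) + 1) ^ e :=
      h0.trans (le_self_pow₀ (by linarith) (by omega))
    have h5 : 1 / ((Nat.log 2 n : ℝ) + 1) ^ e ≤ 1 / 2 :=
      one_div_le_one_div_of_le (by norm_num) h4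
    push_cast
    apply mul_nonneg (by linarith) (by positivity)
  · intro h
    exact (tc0_sub_iff G).2
      ⟨1, le_rfl, excludes_of_thresholds (thresholds_of_sep (sep_of_corr h))⟩

theorem acc0_eq_iff_corr (e : ℕ) (he : 1 ≤ e) :
    ACC0 = TC0 ↔ ∃ m, 2 ≤ m ∧ Correlates (fun _ k => k % m ≠ 0) e := by
  rw [acc0_eq_iff]
  constructor
  · rintro ⟨m, hm, h⟩
    exact ⟨m, hm, (tc0_sub_iff_corr _ e he).1 ((tc0_sub_iff _).2 h)⟩
  · rintro ⟨m, hm, h⟩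
    exact ⟨m, hm, (tc0_sub_iff _).1 ((tc0_sub_iff_corr _ e he).2 h)⟩

end Pool.Agent.TH617.HP
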