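import Pool.Agent.TH617.HP.Pair

set_option autoImplicit false

/-!
If `f` agrees with majority on a fraction `1 / 2 + 1 / (2 Λ)` of the inputs, then for every small
`i` the proportion of accepted words grows by `1 / (2 Λ)` between two layers near the middle whose
distance is a multiple of `i`.
-/

namespace Pool.Agent.TH617.HP

open Pool.Agent.TH762.AC Pool.Agent.TH931.LA

theorem errors_ge {h : ℕ} (f : (Fin (2 * h) → Bool) → Prop) :
    ∑ j ∈ Finset.range h, cc h (j + 1) * frac f (h - (j + 1)) +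
      ∑ j ∈ Finset.range h, cc h (j + 1) -
      ∑ j ∈ Finset.range h, cc h (j + 1) * frac f (h + (j + 1)) ≤ (errors f : ℝ) := by
  have h1 : (errors f : ℝ) = ∑ w ∈ Finset.range (2 * h + 1), (err f w : ℝ) := by
    rw [errors_eq]; push_cast; rfl
  rw [h1, sum_split (fun w => (err f w : ℝ))]
  have h2 : ∑ j ∈ Finset.range h, ((err f (h - (j + 1)) : ℝ) + (err f (h + (j + 1)) : ℝ)) =
      ∑ j ∈ Finset.range h, cc h (j + 1) * frac f (h - (j + 1)) +
      ∑ j ∈ Finset.range h, cc h (j + 1) -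
      ∑ j ∈ Finset.range h, cc h (j + 1) * frac f (h + (j + 1)) := by
    rw [← Finset.sum_add_distrib, ← Finset.sum_sub_distrib]
    apply Finset.sum_congr rfl
    intro j hj
    rw [Finset.mem_range] at hj
    rw [err_below f (h - (j + 1)) (by omega), err_above f (h + (j + 1)) (by omega) (by omega),
      cc_symm h (j + 1) (by omega)]
    unfold cc
    ring
  rw [h2]
  have h3 : (0 : ℝ) ≤ (err f h : ℝ) := Nat.cast_nonneg _
  linarith

theorem tail_aux {h N Λ K Tl X : ℝ} (hN : 1 ≤ N) (hΛ : 1 ≤ Λ) (hKR : h ≤ 16 * N * K)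
    (hhR : 4096 * N ^ 2 * Λ ^ 2 ≤ h) (hTl : 0 ≤ Tl) (htail : K ^ 2 * Tl ≤ h / 4 * X) :
    Tl ≤ 1 / (64 * Λ) * X := by
  have hN2 : 1 ≤ N ^ 2 := one_le_pow₀ hN
  have hΛ2 : 1 ≤ Λ ^ 2 := one_le_pow₀ hΛ
  have hNL : 1 ≤ N ^ 2 * Λ ^ 2 := one_le_mul_of_one_le_of_one_le hN2 hΛ2
  have hh0 : 0 < h := by linarith
  rw [div_mul_eq_mul_div, le_div_iff₀ (by positivity)]
  have h2 : h * h ≤ (16 * N * K) * (16 * N * K) := mul_self_le_mul_self hh0.le hKR
  have h3 : 4096 * N ^ 2 * Λ ^ 2 * h ≤ h * h := mul_le_mul_of_nonneg_right hhR hh0.le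
  have h4 : 0 < 256 * N ^ 2 := by positivity
  have h5 : 256 * N ^ 2 * (16 * Λ ^ 2 * h) ≤ 256 * N ^ 2 * K ^ 2 := by linarith
  have h6 : 16 * Λ ^ 2 * h ≤ K ^ 2 := le_of_mul_le_mul_left h5 h4
  have h7 : 16 * Λ ^ 2 * h * Tl ≤ h / 4 * X := (mul_le_mul_of_nonneg_right h6 hTl).trans htail
  have h8 : h * (Tl * (64 * Λ ^ 2)) ≤ h * X := by linarith
  have h9 := le_of_mul_le_mul_left h8 hh0
  have h10 : Λ ≤ Λ ^ 2 := le_self_pow₀ hΛ (by norm_num)
  have h11 : Tl * (64 * Λ) ≤ Tl * (64 * Λ ^ 2) := mul_le_mul_of_nonneg_left (by linarith) hTl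
  linarith

theorem mid_aux {i N Λ c X : ℝ} (hi : i ≤ N) (hN : 1 ≤ N) (hΛ : 1 ≤ Λ) (hc : 0 ≤ c)
    (hm : 32 * N * Λ * c ≤ 2 / 3 * X) : (i + 1 / 2) * c ≤ 1 / (32 * Λ) * X := by
  rw [div_mul_eq_mul_div, le_div_iff₀ (by positivity)]
  have h1 : i + 1 / 2 ≤ 3 / 2 * N := by linarith
  have h2 : (i + 1 / 2) * (c * (32 * Λ)) ≤ 3 / 2 * N * (c * (32 * Λ)) :=
    mul_le_mul_of_nonneg_right h1 (by positivity)
  linarith

theorem jump2 {h i Λ N : ℕ} (hi : 1 ≤ i) (hiN : i ≤ N) (hΛ : 1 ≤ Λ)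
    (hh : 4096 * N ^ 2 * Λ ^ 2 ≤ h) (f : (Fin (2 * h) → Bool) → Prop)
    (herr : (errors f : ℝ) ≤ (1 - 1 / (Λ : ℝ)) / 2 * 4 ^ h) :
    ∃ j b, j < h / (8 * N) ∧ j ≤ b ∧ b < j + i ∧ i ∣ j + b + 2 ∧
      1 / (2 * (Λ : ℝ)) ≤ frac f (h + (j + 1)) - frac f (h - (b + 1)) := by
  by_contra hno
  push Not at hno
  have hN : 1 ≤ N := by omega
  have hN2 : N ≤ N ^ 2 := Nat.le_self_pow (by norm_num) N
  have hΛ2 : 1 ≤ Λ ^ 2 := Nat.one_le_pow _ _ (by omega)
  have hNh : 4096 * N ≤ h := by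
    calc 4096 * N ≤ 4096 * N ^ 2 := Nat.mul_le_mul_left _ hN2
      _ = 4096 * N ^ 2 * 1 := by ring
      _ ≤ 4096 * N ^ 2 * Λ ^ 2 := Nat.mul_le_mul_left _ hΛ2
      _ ≤ h := hh
  set K := h / (8 * N) with hK
  have hKh : 8 * N * K ≤ h := Nat.mul_div_le h (8 * N)
  have hK1 : 1 ≤ K := (Nat.one_le_div_iff (by omega)).2 (by omega)
  have hKlt : h < 8 * N * (K + 1) := Nat.lt_mul_div_succ h (by omega)
  have hK16 : h ≤ 16 * N * K := by nlinarith
  have hK8 : 8 * K ≤ h := by nlinarith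
  have hKi : K + i ≤ h := by omega
  set ε : ℝ := 1 / (2 * (Λ : ℝ)) with hε
  have hΛ1 : (1 : ℝ) ≤ Λ := by exact_mod_cast hΛ
  have hΛ0 : (0 : ℝ) < Λ := by linarith
  have hpair := pair_sum (cc h) (fun k => frac f (h + k)) (fun a => frac f (h - a))
    (cc_antitone h) (cc_nonneg h) (fun a => frac_nonneg _ _) (fun a => frac_le_one _ _) ε i K hi
    (fun j b h1 h2 h3 h4 => (hno j b h1 h2 h3 h4).le)
  have hE := errors_ge f
  have hT := cc_total h
  have hV := cc_variance h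
  -- the lower layers
  have hlow : ∑ b ∈ Finset.range (K + i), cc h (b + 1) * frac f (h - (b + 1)) ≤
      ∑ b ∈ Finset.range h, cc h (b + 1) * frac f (h - (b + 1)) := by
    apply Finset.sum_le_sum_of_subset_of_nonneg
    · intro j hj
      rw [Finset.mem_range] at hj ⊢
      omega
    · intro j _ _
      exact mul_nonneg (cc_nonneg _ _) (frac_nonneg _ _)
  -- the upper layers
  obtain ⟨M, hM⟩ : ∃ M, h = K + M := ⟨h - K, by omega⟩
  have hsplit : ∀ F : ℕ → ℝ, ∑ j ∈ Finset.range h, F j = ∑ j ∈ Finset.range K, F j +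
      ∑ j ∈ Finset.range M, F (K + j) := by
    intro F
    rw [hM, Finset.sum_range_add]
  have htail : (K : ℝ) ^ 2 * ∑ j ∈ Finset.range M, cc h (K + j + 1) ≤ (h : ℝ) / 4 * 4 ^ h := by
    rw [← hV, hsplit (fun j => ((j : ℝ) + 1) ^ 2 * cc h (j + 1)), Finset.mul_sum]
    have h1 : (0 : ℝ) ≤ ∑ j ∈ Finset.range K, ((j : ℝ) + 1) ^ 2 * cc h (j + 1) :=
      Finset.sum_nonneg (fun j _ => mul_nonneg (sq_nonneg _) (cc_nonneg _ _))
    have h2 : ∑ j ∈ Finset.range M, (K : ℝ) ^ 2 * cc h (K + j + 1) ≤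
        ∑ j ∈ Finset.range M, (((K + j : ℕ) : ℝ) + 1) ^ 2 * cc h (K + j + 1) := by
      apply Finset.sum_le_sum
      intro j _
      apply mul_le_mul_of_nonneg_right _ (cc_nonneg _ _)
      push_cast
      have h3 : (0 : ℝ) ≤ j := Nat.cast_nonneg j
      have h4 : (0 : ℝ) ≤ K := Nat.cast_nonneg K
      nlinarith
    linarith
  have hup : ∑ j ∈ Finset.range M, cc h (K + j + 1) * frac f (h + (K + j + 1)) ≤
      ∑ j ∈ Finset.range M, cc h (K + j + 1) := by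
    apply Finset.sum_le_sum
    intro j _
    have := mul_le_mul_of_nonneg_left (frac_le_one f (h + (K + j + 1))) (cc_nonneg h (K + j + 1))
    linarith
  have hsU := hsplit (fun j => cc h (j + 1) * frac f (h + (j + 1)))
  have hs1 : ∑ j ∈ Finset.range K, cc h (j + 1) ≤ ∑ j ∈ Finset.range h, cc h (j + 1) := by
    apply Finset.sum_le_sum_of_subset_of_nonneg
    · intro j hj
      rw [Finset.mem_range] at hj ⊢
      omega
    · intro j _ _
      exact cc_nonneg _ _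
  set X : ℝ := (4 : ℝ) ^ h with hX
  have hX0 : 0 < X := by positivity
  set c0 := cc h 0 with hc0
  have hc00 : 0 ≤ c0 := cc_nonneg _ _
  -- size of the middle layer
  have hm := cc_zero_le h (32 * N * Λ) (by nlinarith [Nat.mul_le_mul hN hΛ]) (by
    refine le_trans (le_of_eq ?_) hh
    ring)
  have hNR : (1 : ℝ) ≤ N := by exact_mod_cast hN
  have hiR : (i : ℝ) ≤ N := by exact_mod_cast hiN
  have hi0 : (0 : ℝ) ≤ i := Nat.cast_nonneg i
  have hmid : (i + 1 / 2 : ℝ) * c0 ≤ 1 / (32 * (Λ : ℝ)) * X := by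
    push_cast at hm
    exact mid_aux hiR hNR hΛ1 hc00 hm
  -- the tail
  have hKR : (h : ℝ) ≤ 16 * N * K := by exact_mod_cast hK16
  have hhR : 4096 * (N : ℝ) ^ 2 * (Λ : ℝ) ^ 2 ≤ h := by exact_mod_cast hh
  set Tl := ∑ j ∈ Finset.range M, cc h (K + j + 1) with hTl
  have hTl0 : 0 ≤ Tl := Finset.sum_nonneg (fun j _ => cc_nonneg _ _)
  have htl : Tl ≤ 1 / (64 * (Λ : ℝ)) * X := tail_aux hNR hΛ1 hKR hhR hTl0 htail
  have e1 : (1 - 1 / (Λ : ℝ)) / 2 * X = X / 2 - ε * X := by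
    rw [hε]; field_simp
  have e2 : 1 / (32 * (Λ : ℝ)) * X = ε * X / 16 := by
    rw [hε]; field_simp; ring
  have e3 : 1 / (64 * (Λ : ℝ)) * X = ε * X / 32 := by
    rw [hε]; field_simp; ring
  have hε0 : 0 < ε := by positivity
  have hεX : 0 < ε * X := by positivity
  rw [e1] at herr
  rw [e2] at hmid
  rw [e3] at htl
  set A := ∑ j ∈ Finset.range h, cc h (j + 1) with hA
  have h7 : ε * ∑ j ∈ Finset.range K, cc h (j + 1) ≤ ε * A :=
    mul_le_mul_of_nonneg_left hs1 hε0.le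
  have h8 : ε * A ≤ ε * (X / 2) := mul_le_mul_of_nonneg_left (by linarith) hε0.le
  linarith

end Pool.Agent.TH617.HP
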