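import Pool.Agent.TH931.LA.Jump

set_option autoImplicit false

/-!
Pairing the layers above the middle with layers below it so that all distances are multiples
of `i`.
-/

namespace Pool.Agent.TH617.HP

open Pool.Agent.TH762.AC Pool.Agent.TH931.LA

theorem partner (i : ℕ) (hi : 1 ≤ i) (j : ℕ) : ∃ b, j ≤ b ∧ b < j + i ∧ i ∣ j + b + 2 := by
  set q := (2 * j + 1 + i) / i with hq
  have h1 : i * q + (2 * j + 1 + i) % i = 2 * j + 1 + i := Nat.div_add_mod _ _
  have h2 : (2 * j + 1 + i) % i < i := Nat.mod_lt _ hi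
  refine ⟨i * q - (j + 2), by omega, by omega, ⟨q, by omega⟩⟩

theorem shift_sum (c : ℕ → ℝ) (hc : Antitone c) (hc0 : ∀ k, 0 ≤ c k) (i K : ℕ) :
    ∑ j ∈ Finset.range K, (c (j + 1) - c (j + 1 + i)) ≤ i * c 0 := by
  induction i with
  | zero => simp
  | succ i ih =>
    have h1 : ∑ j ∈ Finset.range K, (c (j + 1) - c (j + 1 + (i + 1))) =
        ∑ j ∈ Finset.range K, (c (j + 1) - c (j + 1 + i)) +
        ∑ j ∈ Finset.range K, (c (j + 1 + i) - c (j + 1 + 1 + i)) := by
      rw [← Finset.sum_add_distrib]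
      apply Finset.sum_congr rfl
      intro j _
      rw [show j + 1 + (i + 1) = j + 1 + 1 + i by ring]
      ring
    have h2 : ∑ j ∈ Finset.range K, (c (j + 1 + i) - c (j + 1 + 1 + i)) =
        c (0 + 1 + i) - c (K + 1 + i) :=
      Finset.sum_range_sub' (fun j => c (j + 1 + i)) K
    rw [h1, h2]
    have h3 : c (0 + 1 + i) ≤ c 0 := hc (Nat.zero_le _)
    have h4 := hc0 (K + 1 + i)
    push_cast
    linarith

theorem pair_sum (c U V : ℕ → ℝ) (hc : Antitone c) (hc0 : ∀ k, 0 ≤ c k)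
    (hV0 : ∀ a, 0 ≤ V a) (hV1 : ∀ a, V a ≤ 1) (ε : ℝ) (i K : ℕ) (hi : 1 ≤ i)
    (h : ∀ j b, j < K → j ≤ b → b < j + i → i ∣ j + b + 2 → U (j + 1) - V (b + 1) ≤ ε) :
    ∑ j ∈ Finset.range K, c (j + 1) * U (j + 1) -
      ∑ b ∈ Finset.range (K + i), c (b + 1) * V (b + 1) ≤
      ε * ∑ j ∈ Finset.range K, c (j + 1) + i * c 0 := by
  classical
  choose β hβ1 hβ2 hβ3 using partner i hi
  have hinj : Set.InjOn β (Finset.range K : Set ℕ) := by
    intro j _ j' _ he
    by_contra hne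
    wlog hlt : j < j' generalizing j j'
    · exact this ‹_› ‹_› he.symm (fun h => hne h.symm) (by omega)
    have a1 := hβ3 j
    have a2 := hβ3 j'
    rw [← he] at a2
    have a3 : i ∣ (j' + β j + 2) - (j + β j + 2) := Nat.dvd_sub a2 a1
    have a4 : (j' + β j + 2) - (j + β j + 2) = j' - j := by omega
    rw [a4] at a3
    have a5 := Nat.le_of_dvd (by omega) a3
    have a6 := hβ1 j'
    rw [← he] at a6
    have a7 := hβ2 j
    omega
  have h1 : ∑ j ∈ Finset.range K, c (β j + 1) * V (β j + 1) ≤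
      ∑ b ∈ Finset.range (K + i), c (b + 1) * V (b + 1) := by
    rw [← Finset.sum_image (f := fun b => c (b + 1) * V (b + 1)) hinj]
    apply Finset.sum_le_sum_of_subset_of_nonneg
    · intro b hb
      rw [Finset.mem_image] at hb
      obtain ⟨j, hj, rfl⟩ := hb
      rw [Finset.mem_range] at hj ⊢
      have := hβ2 j
      omega
    · intro b _ _
      exact mul_nonneg (hc0 _) (hV0 _)
  have h2 : ∀ j ∈ Finset.range K, c (j + 1) * U (j + 1) - c (β j + 1) * V (β j + 1) ≤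
      ε * c (j + 1) + (c (j + 1) - c (j + 1 + i)) := by
    intro j hj
    rw [Finset.mem_range] at hj
    have b1 := h j (β j) hj (hβ1 j) (hβ2 j) (hβ3 j)
    have b2 : c (j + 1 + i) ≤ c (β j + 1) := hc (by have := hβ2 j; omega)
    have b3 : c (β j + 1) ≤ c (j + 1) := hc (by have := hβ1 j; omega)
    have b4 := mul_le_mul_of_nonneg_left b1 (hc0 (j + 1))
    have b5 := mul_le_mul_of_nonneg_left (hV1 (β j + 1)) (sub_nonneg.2 b3)
    nlinarith
  have h3 := Finset.sum_le_sum h2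
  rw [Finset.sum_sub_distrib, Finset.sum_add_distrib, ← Finset.mul_sum] at h3
  have h4 := shift_sum c hc hc0 i K
  linarith

/-- The layers of the cube of dimension `2 h`, seen from the middle. -/
noncomputable def cc (h k : ℕ) : ℝ := ((2 * h).choose (h + k) : ℝ)

theorem cc_nonneg (h k : ℕ) : 0 ≤ cc h k := Nat.cast_nonneg _

theorem cc_antitone (h : ℕ) : Antitone (cc h) := by
  apply antitone_nat_of_succ_le
  intro k
  unfold cc
  have h1 := Nat.choose_succ_right_eq (2 * h) (h + k)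
  have h2 : (2 * h).choose (h + k + 1) * (h + k + 1) ≤ (2 * h).choose (h + k) * (h + k + 1) := by
    rw [h1]
    exact Nat.mul_le_mul_left _ (by omega)
  have h3 := Nat.le_of_mul_le_mul_right h2 (by omega)
  rw [show h + (k + 1) = h + k + 1 by ring]
  exact_mod_cast h3

theorem cc_symm (h k : ℕ) (hk : k ≤ h) : ((2 * h).choose (h - k) : ℝ) = cc h k := by
  unfold cc
  have : (2 * h).choose (h - k) = (2 * h).choose (h + k) := Nat.choose_symm_of_eq_add (by omega)
  rw [this]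

theorem sum_split (F : ℕ → ℝ) (h : ℕ) : ∑ w ∈ Finset.range (2 * h + 1), F w =
    F h + ∑ j ∈ Finset.range h, (F (h - (j + 1)) + F (h + (j + 1))) := by
  rw [show 2 * h + 1 = h + (h + 1) by ring, Finset.sum_range_add, Finset.sum_range_succ',
    Finset.sum_add_distrib, ← Finset.sum_range_reflect]
  simp only [add_zero]
  have : ∑ j ∈ Finset.range h, F (h - 1 - j) = ∑ j ∈ Finset.range h, F (h - (j + 1)) := by
    apply Finset.sum_congr rfl
    intro j _
    rw [show h - 1 - j = h - (j + 1) by omega]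
  rw [this]
  ring

theorem cc_total (h : ℕ) : (4 : ℝ) ^ h = cc h 0 + 2 * ∑ j ∈ Finset.range h, cc h (j + 1) := by
  have h1 := Nat.sum_range_choose (2 * h)
  have h2 : (∑ w ∈ Finset.range (2 * h + 1), ((2 * h).choose w : ℝ)) = (2 : ℝ) ^ (2 * h) := by
    exact_mod_cast h1
  rw [sum_split] at h2
  have h3 : (4 : ℝ) ^ h = 2 ^ (2 * h) := by rw [pow_mul]; norm_num
  rw [h3, ← h2]
  have h4 : ∑ j ∈ Finset.range h, (((2 * h).choose (h - (j + 1)) : ℝ) +
      ((2 * h).choose (h + (j + 1)) : ℝ)) = 2 * ∑ j ∈ Finset.range h, cc h (j + 1) := by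
    rw [Finset.mul_sum]
    apply Finset.sum_congr rfl
    intro j hj
    rw [Finset.mem_range] at hj
    rw [cc_symm h (j + 1) (by omega)]
    unfold cc
    ring
  rw [h4]
  unfold cc
  simp

theorem variance (n : ℕ) : ∑ w ∈ Finset.range (n + 1), (n.choose w : ℝ) * (2 * (w : ℝ) - n) ^ 2 =
    (n : ℝ) * 2 ^ n := by
  have h := congrArg (Polynomial.eval (1 / 2 : ℝ)) (bernsteinPolynomial.variance ℝ n)
  simp only [Polynomial.eval_finsetSum, bernsteinPolynomial, Polynomial.eval_mul,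
    Polynomial.eval_pow, Polynomial.eval_sub, Polynomial.eval_X,
    Polynomial.eval_natCast, Polynomial.eval_one, nsmul_eq_mul] at h
  have h2 : ∀ w ∈ Finset.range (n + 1), (n.choose w : ℝ) * (2 * (w : ℝ) - n) ^ 2 =
      4 * 2 ^ n * (((n : ℝ) * (1 / 2) - w) ^ 2 *
        ((n.choose w : ℝ) * (1 / 2) ^ w * (1 - 1 / 2) ^ (n - w))) := by
    intro w hw
    rw [Finset.mem_range] at hw
    have h3 : (2 : ℝ) ^ n = 2 ^ w * 2 ^ (n - w) := by
      rw [← pow_add]; congr 1; omega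
    have h4 : (1 - 1 / 2 : ℝ) = 1 / 2 := by norm_num
    rw [h4, h3, one_div, inv_pow, inv_pow]
    field_simp
    ring
  rw [Finset.sum_congr rfl h2, ← Finset.mul_sum, h]
  ring

theorem cc_variance (h : ℕ) : ∑ j ∈ Finset.range h, ((j : ℝ) + 1) ^ 2 * cc h (j + 1) =
    (h : ℝ) / 4 * 4 ^ h := by
  have h1 := variance (2 * h)
  rw [sum_split] at h1
  have h2 : ∑ j ∈ Finset.range h, (((2 * h).choose (h - (j + 1)) : ℝ) *
        (2 * ((h - (j + 1) : ℕ) : ℝ) - ((2 * h : ℕ) : ℝ)) ^ 2 +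
      ((2 * h).choose (h + (j + 1)) : ℝ) *
        (2 * ((h + (j + 1) : ℕ) : ℝ) - ((2 * h : ℕ) : ℝ)) ^ 2) =
      8 * ∑ j ∈ Finset.range h, ((j : ℝ) + 1) ^ 2 * cc h (j + 1) := by
    rw [Finset.mul_sum]
    apply Finset.sum_congr rfl
    intro j hj
    rw [Finset.mem_range] at hj
    rw [cc_symm h (j + 1) (by omega), Nat.cast_sub (by omega)]
    unfold cc
    push_cast
    ring
  rw [h2] at h1
  push_cast at h1
  have h3 : (4 : ℝ) ^ h = 2 ^ (2 * h) := by rw [pow_mul]; norm_num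
  rw [h3]
  linarith

theorem cc_zero_le (h m : ℕ) (hm : 1 ≤ m) (hh : 4 * m ^ 2 ≤ h) :
    (m : ℝ) * cc h 0 ≤ 2 / 3 * 4 ^ h := by
  have hpos : (0 : ℝ) < h := by
    have : 0 < h := by nlinarith
    exact_mod_cast this
  have hmh : m ≤ h := by nlinarith
  have h1 : ∀ j ∈ Finset.range m, 3 / 4 * cc h 0 ≤ cc h (j + 1) := by
    intro j hj
    rw [Finset.mem_range] at hj
    have h2 := choose_near h (j + 1) (by omega) (by omega)
    have h3 : (((j + 1 : ℕ) : ℝ)) ^ 2 / h ≤ 1 / 4 := by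
      rw [div_le_iff₀ hpos]
      have h4 : (j + 1) ^ 2 ≤ m ^ 2 := Nat.pow_le_pow_left hj 2
      have h5 : 4 * (j + 1) ^ 2 ≤ h := by omega
      have h6 : (4 : ℝ) * ((j + 1 : ℕ) : ℝ) ^ 2 ≤ h := by exact_mod_cast h5
      linarith
    have h7 : (3 / 4 : ℝ) * ((2 * h).choose h : ℝ) ≤
        (1 - ((j + 1 : ℕ) : ℝ) ^ 2 / h) * ((2 * h).choose h : ℝ) :=
      mul_le_mul_of_nonneg_right (by linarith) (Nat.cast_nonneg _)
    unfold cc
    rw [add_zero]
    exact h7.trans h2
  have h2 := Finset.sum_le_sum h1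
  rw [Finset.sum_const, Finset.card_range, nsmul_eq_mul] at h2
  have h3 : ∑ j ∈ Finset.range m, cc h (j + 1) ≤ ∑ j ∈ Finset.range h, cc h (j + 1) := by
    apply Finset.sum_le_sum_of_subset_of_nonneg
    · intro j hj
      rw [Finset.mem_range] at hj ⊢
      omega
    · intro j _ _
      exact cc_nonneg _ _
  have h4 := cc_total h
  have h5 := cc_nonneg h 0
  linarith

end Pool.Agent.TH617.HP
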